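import Pool.Agent.ATW.Stmts

/-!
Row BDV of the squad ATW: the congruences for two fixed characters.
-/

open scoped BigOperators

noncomputable section

namespace Pool.Agent.PP.TW.H34

open Pool.Agent.Helper51_AWC Pool.Agent.Helper79_WRA Pool.Agent.PP Pool.Agent.PP.KF
open Pool.Agent.PP.K9 Pool.Agent.PP.K9.H97 Pool.Agent.PP.H75 Pool.Agent.PP.T3 Pool.Agent.PP.T2
open Pool.Agent.PP.T5 Pool.Agent.PP.TB
open Pool.Agent.PP.T8 (rs pw fv rd Ip Rv vv Dat Fr)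

attribute [local instance] Ideal.Quotient.field

/-- the subgroup of the elements `y ^ (m i) w ^ k` -/
theorem ex_W {G : Type} [Group G] [Finite G] (y w : G) (a m n : ℕ) (hc : Commute y w)
    (hy : y ^ (2 ^ a) = 1) (hw : w ^ 2 = 1) (hm : m * n = 2 ^ a)
    (inj : ∀ j j' i i' : ℕ, y ^ j * w ^ i = y ^ j' * w ^ i' →
      j ≡ j' [MOD 2 ^ a] ∧ i ≡ i' [MOD 2]) :
    ∃ W : Subgroup G, (∀ g ∈ W, ∃ i k : ℕ, g = y ^ (m * i) * w ^ k) ∧ Nat.card W = n * 2 ∧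
      ∀ F : G → ℂ, ∑ᶠ v : W, F v =
        ∑ i ∈ Finset.range n, ∑ k ∈ Finset.range 2, F (y ^ (m * i) * w ^ k) := by
  have hpos : 0 < m * n := by rw [hm]; positivity
  have hm0 : 0 < m := Nat.pos_of_mul_pos_right hpos
  have hn0 : 0 < n := Nat.pos_of_mul_pos_left hpos
  have hmul : ∀ i k i' k' : ℕ, y ^ (m * i) * w ^ k * (y ^ (m * i') * w ^ k') =
      y ^ (m * (i + i')) * w ^ (k + k') := by
    intro i k i' k'
    have h1 : w ^ k * y ^ (m * i') = y ^ (m * i') * w ^ k := (hc.symm.pow_pow k (m * i')).eq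
    rw [mul_add, pow_add, pow_add, mul_assoc, ← mul_assoc (w ^ k), h1]
    simp only [mul_assoc]
  let W : Subgroup G :=
    { carrier := {g | ∃ i k : ℕ, g = y ^ (m * i) * w ^ k}
      mul_mem' := by
        rintro g g' ⟨i, k, rfl⟩ ⟨i', k', rfl⟩
        exact ⟨i + i', k + k', hmul i k i' k'⟩
      one_mem' := ⟨0, 0, by rw [Nat.mul_zero, pow_zero, pow_zero, mul_one]⟩
      inv_mem' := by
        rintro g ⟨i, k, rfl⟩
        refine ⟨i * (2 ^ a - 1), k, ?_⟩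
        apply inv_eq_of_mul_eq_one_right
        rw [hmul]
        have h1 : m * (i + i * (2 ^ a - 1)) = 2 ^ a * (m * i) := by
          have h2 : 1 + (2 ^ a - 1) = 2 ^ a := by
            have : 0 < 2 ^ a := by positivity
            omega
          calc m * (i + i * (2 ^ a - 1)) = m * i * (1 + (2 ^ a - 1)) := by ring
            _ = 2 ^ a * (m * i) := by rw [h2]; ring
        rw [h1, pow_mul, hy, one_pow, one_mul, ← two_mul, pow_mul, hw, one_pow] }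
  have hWm : ∀ g, g ∈ W ↔ ∃ i k : ℕ, g = y ^ (m * i) * w ^ k := fun g => Iff.rfl
  let φ : Fin n × Fin 2 → W := fun x => ⟨y ^ (m * x.1.val) * w ^ x.2.val, x.1.val, x.2.val, rfl⟩
  have hφ : Function.Bijective φ := by
    constructor
    · rintro ⟨i, k⟩ ⟨i', k'⟩ h
      have h1 : y ^ (m * i.val) * w ^ k.val = y ^ (m * i'.val) * w ^ k'.val :=
        congrArg Subtype.val h
      obtain ⟨h2, h3⟩ := inj _ _ _ _ h1
      have h4 : m * i.val < 2 ^ a := by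
        rw [← hm]; exact Nat.mul_lt_mul_of_pos_left i.2 hm0
      have h5 : m * i'.val < 2 ^ a := by
        rw [← hm]; exact Nat.mul_lt_mul_of_pos_left i'.2 hm0
      have h6 := Nat.eq_of_mul_eq_mul_left hm0 (Nat.ModEq.eq_of_lt_of_lt h2 h4 h5)
      have h7 := Nat.ModEq.eq_of_lt_of_lt h3 k.2 k'.2
      exact Prod.ext (Fin.ext h6) (Fin.ext h7)
    · rintro ⟨g, hg⟩
      obtain ⟨i, k, rfl⟩ := (hWm _).1 hg
      refine ⟨(⟨i % n, Nat.mod_lt _ hn0⟩, ⟨k % 2, Nat.mod_lt _ (by norm_num)⟩), ?_⟩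
      apply Subtype.ext
      show y ^ (m * (i % n)) * w ^ (k % 2) = y ^ (m * i) * w ^ k
      have e1 : y ^ (m * i) = y ^ (m * (i % n)) := by
        have h1 : m * i = 2 ^ a * (i / n) + m * (i % n) := by
          rw [← hm]
          calc m * i = m * (n * (i / n) + i % n) := by rw [Nat.div_add_mod]
            _ = m * n * (i / n) + m * (i % n) := by ring
        rw [h1, pow_add, pow_mul, hy, one_pow, one_mul]
      have e2 : w ^ k = w ^ (k % 2) := by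
        have h1 : k = 2 * (k / 2) + k % 2 := (Nat.div_add_mod k 2).symm
        conv_lhs => rw [h1]
        rw [pow_add, pow_mul, hw, one_pow, one_mul]
      rw [e1, e2]
  refine ⟨W, fun g hg => (hWm g).1 hg, ?_, ?_⟩
  · rw [← Nat.card_congr (Equiv.ofBijective φ hφ), Nat.card_prod, Nat.card_fin, Nat.card_fin]
  · intro F
    have h1 := finsum_comp_equiv (Equiv.ofBijective φ hφ) (f := fun v : W => F v)
    rw [← h1, finsum_eq_sum_of_fintype, Fintype.sum_prod_type, Finset.sum_range]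
    refine Finset.sum_congr rfl fun i _ => ?_
    rw [Finset.sum_range]
    rfl

theorem r2_sq : r2 * r2 = -2 := by
  unfold r2
  have h1 : ((Real.sqrt 2 : ℝ) : ℂ) * ((Real.sqrt 2 : ℝ) : ℂ) = 2 := by
    rw [← Complex.ofReal_mul, Real.mul_self_sqrt (by norm_num)]
    norm_num
  calc Complex.I * (Real.sqrt 2 : ℂ) * (Complex.I * (Real.sqrt 2 : ℂ))
      = Complex.I * Complex.I * ((Real.sqrt 2 : ℂ) * (Real.sqrt 2 : ℂ)) := by ring
    _ = -2 := by rw [h1, Complex.I_mul_I]; ring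

theorem conj_r2 : starRingEnd ℂ r2 = -r2 := by
  unfold r2
  rw [map_mul, Complex.conj_I, Complex.conj_ofReal]
  ring

theorem sg8_sq (j : ℕ) : (sg8 j : ℂ) * sg8 j = 1 := by
  unfold sg8
  split_ifs <;> norm_num

theorem r2_int : IsIntegral ℤ r2 := by
  refine ⟨Polynomial.X ^ 2 + Polynomial.C 2, ?_, ?_⟩
  · exact Polynomial.monic_X_pow_add_C 2 (by norm_num)
  · rw [Polynomial.eval₂_add, Polynomial.eval₂_pow, Polynomial.eval₂_X, Polynomial.eval₂_C, sq,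
      r2_sq]
    norm_num

theorem sum_sg8 (n : ℕ) : ∑ i ∈ Finset.range (2 * n), sg8 (1 + 4 * i) = 0 := by
  induction n with
  | zero => rfl
  | succ n ih =>
    rw [show 2 * (n + 1) = 2 * n + 1 + 1 by ring, Finset.sum_range_succ, Finset.sum_range_succ, ih]
    unfold sg8
    rw [if_pos (by omega), if_neg (by omega)]
    norm_num

section
variable {M : Ideal (integralClosure ℤ ℂ)} [M.IsMaximal]

theorem two_res (hM : ((2 : ℕ) : integralClosure ℤ ℂ) ∈ M) : rr M ((2 : ℤ) : ℂ) = 0 :=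
  (dvd_of_rr (M := M) (ℓ := 2) Nat.prime_two hM).2 (dvd_refl _)

/-- an integer whose half is in the local ring is even -/
theorem even_of (hM : ((2 : ℕ) : integralClosure ℤ ℂ) ∈ M) {B : ℤ} {z : ℂ} (hz : z ∈ RM M)
    (h : (B : ℂ) = z * 2) : (2 : ℤ) ∣ B := by
  refine (dvd_of_rr (M := M) (ℓ := 2) Nat.prime_two hM).1 ?_
  have h2 : ((2 : ℤ) : ℂ) ∈ RM M := (rr_int 2).1
  have h3 : (B : ℂ) = z * ((2 : ℤ) : ℂ) := by rw [h]; norm_num
  rw [h3, rr_mul hz h2, two_res hM, mul_zero]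

theorem r2_res (hM : ((2 : ℕ) : integralClosure ℤ ℂ) ∈ M) : rr M r2 = 0 := by
  have h1 : r2 ∈ RM M := RM_of_int r2_int
  have h2 : rr M (r2 * r2) = 0 := by
    rw [r2_sq]
    have h3 : (-2 : ℂ) = ((-2 : ℤ) : ℂ) := by norm_num
    rw [h3]
    exact (dvd_of_rr (M := M) (ℓ := 2) Nat.prime_two hM).2 ⟨-1, by norm_num⟩
  rw [rr_mul h1 h1] at h2
  exact mul_self_eq_zero.1 h2

/-- the final argument -/
theorem fin (hM : ((2 : ℕ) : integralClosure ℤ ℂ) ∈ M) {B D A E : ℤ} (hA : ¬ (2 : ℤ) ∣ A)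
    (h1 : ((B : ℂ) + D * r2) / 2 ∈ RM M) (h2 : (B : ℂ) / 2 ∈ RM M)
    (h3 : rr M ((B : ℂ) / 2) = rr M ((A : ℂ) + E * r2)) : B % 4 = 2 ∧ (2 : ℤ) ∣ D := by
  have hB : (2 : ℤ) ∣ B := even_of hM h2 (by ring)
  obtain ⟨B', rfl⟩ := hB
  have e1 : (((2 * B' : ℤ) : ℂ)) / 2 = (B' : ℂ) := by push_cast; ring
  rw [e1] at h3
  have h4 : rr M ((A : ℂ) + E * r2) = rr M (A : ℂ) := by
    have i1 : r2 ∈ RM M := RM_of_int r2_int
    rw [rr_add (rr_int A).1 ((RM M).mul_mem (rr_int E).1 i1), rr_mul (rr_int E).1 i1, r2_res hM,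
      mul_zero, add_zero]
  have h5 : ¬ (2 : ℤ) ∣ B' := by
    intro h
    apply hA
    have h6 := (dvd_of_rr (M := M) (ℓ := 2) Nat.prime_two hM).2 h
    rw [h3, h4] at h6
    exact (dvd_of_rr (M := M) (ℓ := 2) Nat.prime_two hM).1 h6
  refine ⟨by omega, ?_⟩
  have h7 : (D : ℂ) * r2 / 2 ∈ RM M := by
    have := (RM M).sub_mem h1 h2
    have e2 : (((2 * B' : ℤ) : ℂ) + D * r2) / 2 - ((2 * B' : ℤ) : ℂ) / 2 = D * r2 / 2 := by ring
    rwa [e2] at this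
  have h8 := (RM M).mul_mem h7 h7
  have e3 : (D : ℂ) * r2 / 2 * (D * r2 / 2) = -((D : ℂ) * D) / 2 := by
    calc (D : ℂ) * r2 / 2 * (D * r2 / 2) = D * D * (r2 * r2) / 4 := by ring
      _ = -((D : ℂ) * D) / 2 := by rw [r2_sq]; ring
  rw [e3] at h8
  have h9 : (2 : ℤ) ∣ -(D * D) := even_of hM h8 (by push_cast; ring)
  rw [dvd_neg] at h9
  rcases Int.prime_two.dvd_or_dvd h9 with h | h <;> exact h

end

/-- the product of two values -/
theorem prodv (p q p0 q0 s : ℤ) (hs : (s : ℂ) * s = 1) :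
    ((p : ℂ) + s * q * r2) * starRingEnd ℂ ((p0 : ℂ) + s * q0 * r2) =
      ((p * p0 + 2 * (q * q0) : ℤ) : ℂ) + s * ((q * p0 - p * q0 : ℤ) : ℂ) * r2 := by
  have h1 : starRingEnd ℂ ((p0 : ℂ) + s * q0 * r2) = (p0 : ℂ) - s * q0 * r2 := by
    rw [map_add, map_mul, map_mul, conj_r2, map_intCast, map_intCast,
      map_intCast]
    ring
  rw [h1]
  push_cast
  calc ((p : ℂ) + s * q * r2) * ((p0 : ℂ) - s * q0 * r2) =
      (p : ℂ) * p0 - (s * s) * (q * q0) * (r2 * r2) + s * (q * p0 - p * q0) * r2 := by ring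
    _ = (p : ℂ) * p0 + 2 * (q * q0) + s * (q * p0 - p * q0) * r2 := by
      rw [hs, r2_sq]; ring

theorem bdv (hco : HcoStmt) (avp : AvpStmt) (rgw : RgwStmt) : BdvStmt := by
  intro M _ hM G _ _ N hN a e V γ b d c ε y w S χ hχ ψ hψ p q p' q' p0 q0 p0' q0' v1 v2 v3 v4
  obtain ⟨f, hf, hfu, hfN⟩ := hco 2 M hM G e V γ b d c ε S.dat χ hχ.1 ψ hψ.1
  obtain ⟨r1, -, r3, r4⟩ := rgw M hM G a e V γ b d c ε y w S
  have hab : ∀ s ∈ V, ∀ t ∈ V, s * t = t * s := S.dat.ld.ab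
  have hexp : ∀ v ∈ V, v ^ (2 ^ a) = 1 := by
    intro v hv
    have h1 := Monoid.pow_exponent_eq_one (⟨v, hv⟩ : V)
    rw [S.exp] at h1
    exact congrArg Subtype.val h1
  have hpg : IsPGroup 2 V := by
    intro v
    exact ⟨a, Subtype.ext (hexp v.1 v.2)⟩
  have hf3 : ∀ v ∈ V, f (v ^ 3) = f v := by
    intro v hv
    have h1 := hfN N hN.cop hN.reg hχ.2 hψ.2 v hv
    rwa [hN.pow v ⟨a, hexp v hv⟩] at h1
  have hwV : w ∈ V := by
    obtain ⟨x, hx, rfl⟩ := S.wV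
    exact V.pow_mem hx 2
  have hc : Commute y w := hab y S.yV w hwV
  have hy : y ^ 2 ^ a = 1 := hexp y S.yV
  obtain ⟨x, hxV, hwx⟩ := S.wV
  have hcx : Commute y x := hab y S.yV x hxV
  -- values
  have val0 : ∀ j : ℕ, ¬ 2 ∣ j → f (y ^ j) =
      ((p * p0 + 2 * (q * q0) : ℤ) : ℂ) + sg8 j * ((q * p0 - p * q0 : ℤ) : ℂ) * r2 := by
    intro j hj
    have h1 := r1 j 0 hj
    rw [pow_zero, mul_one] at h1
    rw [hfu _ h1, v1.1 j hj, v3.1 j hj]
    exact prodv p q p0 q0 (sg8 j) (sg8_sq j)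
  have val1 : ∀ j : ℕ, ¬ 2 ∣ j → f (y ^ j * w) =
      ((p' * p0' + 2 * (q' * q0') : ℤ) : ℂ) +
        sg8 j * ((q' * p0' - p' * q0' : ℤ) : ℂ) * r2 := by
    intro j hj
    have h1 := r1 j 1 hj
    rw [pow_one, ← r4 j hj] at h1
    rw [← r4 j hj, hfu _ h1, v2.1 j hj, v4.1 j hj]
    exact prodv p' q' p0' q0' (sg8 j) (sg8_sq j)
  have s1 : sg8 1 = 1 := by unfold sg8; norm_num
  have hone : ¬ 2 ∣ 1 := by norm_num
  have fy : f y = ((p * p0 + 2 * (q * q0) : ℤ) : ℂ) + ((q * p0 - p * q0 : ℤ) : ℂ) * r2 := by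
    have h1 := val0 1 hone
    rw [pow_one, s1, Int.cast_one, one_mul] at h1
    exact h1
  have fyw : f (y * w) =
      ((p' * p0' + 2 * (q' * q0') : ℤ) : ℂ) + ((q' * p0' - p' * q0' : ℤ) : ℂ) * r2 := by
    have h1 := val1 1 hone
    rw [pow_one, s1, Int.cast_one, one_mul] at h1
    exact h1
  have hle : 2 ≤ a := S.le
  have hpow : 4 * 2 ^ (a - 2) = 2 ^ a := by
    have : a = 2 + (a - 2) := by omega
    conv_rhs => rw [this, pow_add]
    norm_num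
  -- the first average
  have avg : ∀ m n : ℕ, m * n = 2 ^ a → 2 ∣ m → ∃ W : Subgroup G,
      ((Nat.card W : ℂ)⁻¹ * ∑ᶠ v : W, f (y * v)) ∈ RM M ∧
      rr M ((Nat.card W : ℂ)⁻¹ * ∑ᶠ v : W, f (y * v)) = rr M (f y) ∧
      (Nat.card W : ℂ)⁻¹ * ∑ᶠ v : W, f (y * v) =
        ((n : ℂ) * 2)⁻¹ * ∑ i ∈ Finset.range n, (f (y ^ (1 + m * i)) + f (y ^ (1 + m * i) * w)) := by
    intro m n hmn hm2
    obtain ⟨W, hW1, hW2, hW3⟩ := ex_W y w a m n hc hy S.w2 hmn r3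
    obtain ⟨m', rfl⟩ := hm2
    have hWV : W ≤ V := by
      intro g hg
      obtain ⟨i, k, rfl⟩ := hW1 g hg
      exact V.mul_mem (V.pow_mem S.yV _) (V.pow_mem hwV _)
    have hWs : ∀ g ∈ W, ∃ x ∈ V, g = x ^ 2 := by
      intro g hg
      obtain ⟨i, k, rfl⟩ := hW1 g hg
      refine ⟨y ^ (m' * i) * x ^ k, V.mul_mem (V.pow_mem S.yV _) (V.pow_mem hxV _), ?_⟩
      rw [(hcx.pow_pow (m' * i) k).mul_pow, ← pow_mul, ← pow_mul, hwx, ← pow_mul]
      rw [show 2 * m' * i = m' * i * 2 by ring, show 2 * k = k * 2 by ring]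
    obtain ⟨-, h1, h2⟩ := avp M hM G V hpg hab f hf hf3 W hWV hWs y S.yV
    refine ⟨W, h1, h2, ?_⟩
    rw [hW3 (fun g => f (y * g)), hW2]
    push_cast
    congr 1
    refine Finset.sum_congr rfl fun i _ => ?_
    rw [Finset.sum_range_succ, Finset.sum_range_succ, Finset.sum_range_zero, zero_add, pow_zero,
      mul_one, pow_one, ← mul_assoc, ← pow_succ', Nat.add_comm]
  obtain ⟨W1, a1, -, a3⟩ := avg (2 ^ a) 1 (Nat.mul_one _) (dvd_pow_self 2 (by omega))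
  obtain ⟨W2, b1, b2, b3⟩ := avg 4 (2 ^ (a - 2)) hpow (by norm_num)
  rw [a3] at a1
  rw [b3] at b1 b2
  rw [Finset.sum_range_one, Nat.mul_zero, Nat.add_zero, pow_one, fy, fyw] at a1
  have hn0 : (((2 ^ (a - 2) : ℕ) : ℂ)) ≠ 0 := by
    have : (2 : ℕ) ^ (a - 2) ≠ 0 := by positivity
    exact_mod_cast this
  have hsum : ∑ i ∈ Finset.range (2 ^ (a - 2)), (f (y ^ (1 + 4 * i)) + f (y ^ (1 + 4 * i) * w)) =
      ((2 ^ (a - 2) : ℕ) : ℂ) * ((p * p0 + p' * p0' + 2 * (q * q0 + q' * q0') : ℤ) : ℂ) := by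
    have h1 : ∀ i ∈ Finset.range (2 ^ (a - 2)),
        f (y ^ (1 + 4 * i)) + f (y ^ (1 + 4 * i) * w) =
        ((p * p0 + p' * p0' + 2 * (q * q0 + q' * q0') : ℤ) : ℂ) +
          (sg8 (1 + 4 * i) : ℂ) *
            ((((q * p0 - p * q0) + (q' * p0' - p' * q0') : ℤ) : ℂ) * r2) := by
      intro i _
      have hodd : ¬ 2 ∣ 1 + 4 * i := by omega
      rw [val0 _ hodd, val1 _ hodd]
      push_cast
      ring
    rw [Finset.sum_congr rfl h1, Finset.sum_add_distrib, ← Finset.sum_mul, Finset.sum_const,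
      Finset.card_range, nsmul_eq_mul]
    have h2 : (∑ i ∈ Finset.range (2 ^ (a - 2)), (sg8 (1 + 4 * i) : ℂ)) *
        ((((q * p0 - p * q0) + (q' * p0' - p' * q0') : ℤ) : ℂ) * r2) = 0 := by
      rcases Nat.lt_or_ge 2 a with h3 | h3
      · have h4 : a - 2 = (a - 3) + 1 := by omega
        have h5 : (2 : ℕ) ^ (a - 2) = 2 * 2 ^ (a - 3) := by rw [h4, pow_succ]; ring
        have h6 := sum_sg8 (2 ^ (a - 3))
        rw [← h5] at h6
        have h7 : (∑ i ∈ Finset.range (2 ^ (a - 2)), (sg8 (1 + 4 * i) : ℂ)) = 0 := by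
          rw [← Int.cast_sum, h6, Int.cast_zero]
        rw [h7, zero_mul]
      · have e1 := v1.2.1 h3
        have e2 := v2.2.1 h3
        have e3 := v3.2.1 h3
        have e4 := v4.2.1 h3
        rw [e1, e2, e3, e4]
        simp
    rw [h2, add_zero]
  rw [hsum] at b1 b2
  have eB : (((2 ^ (a - 2) : ℕ) : ℂ) * 2)⁻¹ * (((2 ^ (a - 2) : ℕ) : ℂ) *
      ((p * p0 + p' * p0' + 2 * (q * q0 + q' * q0') : ℤ) : ℂ)) =
      ((p * p0 + p' * p0' + 2 * (q * q0 + q' * q0') : ℤ) : ℂ) / 2 := by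
    field_simp
  rw [eB] at b1 b2
  rw [fy] at b2
  have eA : (((1 : ℕ) : ℂ) * 2)⁻¹ * (((p * p0 + 2 * (q * q0) : ℤ) : ℂ) +
      ((q * p0 - p * q0 : ℤ) : ℂ) * r2 + (((p' * p0' + 2 * (q' * q0') : ℤ) : ℂ) +
        ((q' * p0' - p' * q0' : ℤ) : ℂ) * r2)) =
      (((p * p0 + p' * p0' + 2 * (q * q0 + q' * q0') : ℤ) : ℂ) +
        (((q * p0 - p * q0) + (q' * p0' - p' * q0') : ℤ) : ℂ) * r2) / 2 := by
    push_cast
    ring
  rw [eA] at a1
  have hA : ¬ (2 : ℤ) ∣ p * p0 + 2 * (q * q0) := by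
    intro h
    have h1 : (2 : ℤ) ∣ p * p0 := by
      have := dvd_sub h (Dvd.intro (q * q0) rfl)
      rwa [add_sub_cancel_right] at this
    have h2 : Odd (p * p0) := v1.2.2.mul v3.2.2
    rcases h2 with ⟨k, hk⟩
    omega
  exact fin hM hA a1 b1 b2

end Pool.Agent.PP.TW.H34
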